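import Pool.Agent.Lib.MP_a147dc_co.B.Final

/-! Point sets whose homogeneous coordinates are integer combinations, with coefficients of
polynomial size, of boundedly many real numbers and that have no four points on a line split into
at most `n ^ (1/2 - ε)` subsets in general position. -/

namespace Pool.Agent.Results.MP_a147dc_co.BoundedParams

open Finset

theorem result (r C : ℕ) : ∃ ε : ℝ, 0 < ε ∧ ∃ n₀ : ℕ, ∀ (g : Fin r → ℝ)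
    (S : Finset (EuclideanSpace ℝ (Fin 2))), n₀ ≤ S.card →
      (∀ p ∈ S, ∃ a b c : Fin r → ℤ,
        (∀ i, |a i| ≤ (S.card : ℤ) ^ C ∧ |b i| ≤ (S.card : ℤ) ^ C ∧ |c i| ≤ (S.card : ℤ) ^ C) ∧
        ∑ i, (c i : ℝ) * g i ≠ 0 ∧ p 0 = (∑ i, (a i : ℝ) * g i) / ∑ i, (c i : ℝ) * g i ∧
        p 1 = (∑ i, (b i : ℝ) * g i) / ∑ i, (c i : ℝ) * g i) →
      (∀ T ⊆ S, T.card = 4 → ¬ Collinear ℝ (T : Set (EuclideanSpace ℝ (Fin 2)))) →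
      ∃ k : ℕ, (k : ℝ) ≤ (S.card : ℝ) ^ (1 / 2 - ε) ∧
        ∃ col : EuclideanSpace ℝ (Fin 2) → ℕ, (∀ p ∈ S, col p < k) ∧
          ∀ T ⊆ S, T.card = 3 → (∀ p ∈ T, ∀ q ∈ T, col p = col q) →
            ¬ Collinear ℝ (T : Set (EuclideanSpace ℝ (Fin 2))) :=
  Pool.Agent.Lib.MP_a147dc_co.B.final r C

/-- the largest colour class -/
theorem general_position (r C : ℕ) : ∃ ε : ℝ, 0 < ε ∧ ∃ n₀ : ℕ, ∀ (g : Fin r → ℝ)
    (S : Finset (EuclideanSpace ℝ (Fin 2))), n₀ ≤ S.card →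
      (∀ p ∈ S, ∃ a b c : Fin r → ℤ,
        (∀ i, |a i| ≤ (S.card : ℤ) ^ C ∧ |b i| ≤ (S.card : ℤ) ^ C ∧ |c i| ≤ (S.card : ℤ) ^ C) ∧
        ∑ i, (c i : ℝ) * g i ≠ 0 ∧ p 0 = (∑ i, (a i : ℝ) * g i) / ∑ i, (c i : ℝ) * g i ∧
        p 1 = (∑ i, (b i : ℝ) * g i) / ∑ i, (c i : ℝ) * g i) →
      (∀ T ⊆ S, T.card = 4 → ¬ Collinear ℝ (T : Set (EuclideanSpace ℝ (Fin 2)))) →
      ∃ G ⊆ S, (S.card : ℝ) ^ (1 / 2 + ε) ≤ G.card ∧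
        ∀ T ⊆ G, T.card = 3 → ¬ Collinear ℝ (T : Set (EuclideanSpace ℝ (Fin 2))) := by
  obtain ⟨ε, hε, n₀, H⟩ := result r C
  refine ⟨ε, hε, n₀ + 1, fun g S hn h1 h4 => ?_⟩
  obtain ⟨k, hk, col, c1, c2⟩ := H g S (by omega) h1 h4
  exact Pool.Agent.Lib.MP_a147dc_co.B.gp_of_col (by omega) hk c1 c2

end Pool.Agent.Results.MP_a147dc_co.BoundedParams
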